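import Pool.Agent.Run7.h874.LE.Kep

/-!
# Escaping orbits arbitrarily close to Lagrange's elliptic solutions

The planar three-body problem with masses `m 0, m 1, m 2` (gravitational constant `1`), bodies in
`ℂ`.  For an open set of masses (`m 0` and `m 1` almost equal, `m 2` small, all positive) every
solution that stays close to a Lagrange homographic solution (equilateral triangle, eccentricity
at most `η`, either orientation, either sense of rotation, any size) has, in every neighbourhood
of its initial state, states from which body `2` escapes to infinity.  In particular this holds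
for the Lagrange solutions themselves: the relative equilibria and the elliptic ones of
eccentricity at most `η`.
-/

set_option autoImplicit false

namespace Pool.Agent.Results.MP_6e7c44_mp.LagrangeEquilibriaEscape

open Set Filter Topology Run7.h874.LE

/-- Phase points of three bodies in the plane `ℂ`: positions and velocities. -/
abbrev State := (Fin 3 → ℂ) × (Fin 3 → ℂ)

/-- Newtonian acceleration of body `a`. -/
noncomputable def accel (m : Fin 3 → ℝ) (q : Fin 3 → ℂ) (a : Fin 3) : ℂ :=
  ∑ b ∈ Finset.univ.erase a, ((m b / ‖q b - q a‖ ^ 3 : ℝ) : ℂ) * (q b - q a)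

/-- `x = (q, v)` is a collision-free solution of Newton's equations on `[0, ∞)`. -/
def Solves (m : Fin 3 → ℝ) (x : ℝ → State) : Prop :=
  ∀ t, 0 ≤ t → (∀ a b, a ≠ b → (x t).1 a ≠ (x t).1 b) ∧
    HasDerivWithinAt x ((x t).2, accel m (x t).1) (Ici 0) t

/-- The solution that starts at `z` exists for all positive times, along it the distances of
body `2` to the bodies `0` and `1` grow at least linearly, and the distance of the bodies `0` and
`1` stays bounded. -/
def Escapes (m : Fin 3 → ℝ) (z : State) : Prop :=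
  ∃ x : ℝ → State, x 0 = z ∧ Solves m x ∧ ∃ a ρ : ℝ, 0 < a ∧ ∀ᶠ t in atTop,
    a * t ≤ ‖(x t).1 2 - (x t).1 0‖ ∧ a * t ≤ ‖(x t).1 2 - (x t).1 1‖ ∧
    ‖(x t).1 1 - (x t).1 0‖ ≤ ρ

/-- Position on the Kepler ellipse with eccentricity `e` and semi-major axis `1`, at the
eccentric anomaly `θ`. -/
noncomputable def ellPos (e θ : ℝ) : ℂ :=
  ((Real.cos θ - e : ℝ) : ℂ) + ((Real.sqrt (1 - e ^ 2) * Real.sin θ : ℝ) : ℂ) * Complex.I

/-- Velocity on that ellipse with respect to the mean anomaly. -/
noncomputable def ellVel (e θ : ℝ) : ℂ :=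
  (((-Real.sin θ : ℝ) : ℂ) + ((Real.sqrt (1 - e ^ 2) * Real.cos θ : ℝ) : ℂ) * Complex.I) /
    ((1 - e * Real.cos θ : ℝ) : ℂ)

/-- For all `t ≥ 0` the relative positions and velocities of `x` stay within the relative error
`η` of those of a Lagrange homographic solution with eccentricity `e`: an equilateral triangle
(shape `c`), `θ` the eccentric anomaly (Kepler's equation), semi-major axis `L`, mean motion `ω`
(Kepler's third law). -/
def NearLagrange (η e : ℝ) (m : Fin 3 → ℝ) (x : ℝ → State) : Prop :=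
  ∃ (L ω s : ℝ) (u c : ℂ) (θ : ℝ → ℝ), 0 < L ∧ ω ≠ 0 ∧ ω ^ 2 * L ^ 3 = m 0 + m 1 + m 2 ∧
    ‖u‖ = 1 ∧ c ^ 2 - c + 1 = 0 ∧ (∀ t, θ t - e * Real.sin (θ t) = ω * t + s) ∧
    ∀ t, 0 ≤ t →
      ‖((x t).1 1 - (x t).1 0) - L * u * ellPos e (θ t)‖ ≤ η * L ∧
      ‖((x t).1 2 - (x t).1 0) - c * (L * u * ellPos e (θ t))‖ ≤ η * L ∧
      ‖((x t).2 1 - (x t).2 0) - ω * L * u * ellVel e (θ t)‖ ≤ η * (|ω| * L) ∧
      ‖((x t).2 2 - (x t).2 0) - c * (ω * L * u * ellVel e (θ t))‖ ≤ η * (|ω| * L)

/-- There is `η > 0` such that, for all positive masses with `|m 0 - m 1| ≤ η (m 0 + m 1)` and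
`m 2 ≤ η (m 0 + m 1)` and all eccentricities `e ≤ η`: for every solution that stays `η`-close to a
Lagrange homographic solution of eccentricity `e`, every neighbourhood of its initial state
contains states from which body `2` escapes to infinity (linearly in time, the bodies `0` and `1`
staying together). -/
theorem result : ∃ η : ℝ, 0 < η ∧ ∀ m : Fin 3 → ℝ, (∀ a, 0 < m a) →
    |m 0 - m 1| ≤ η * (m 0 + m 1) → m 2 ≤ η * (m 0 + m 1) →
    ∀ e : ℝ, 0 ≤ e → e ≤ η → ∀ x : ℝ → State, Solves m x → NearLagrange η e m x →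
    ∀ U ∈ 𝓝 (x 0), ∃ z ∈ U, Escapes m z := by
  obtain ⟨η, hη, hG⟩ := ell_general
  refine ⟨η, hη, ?_⟩
  intro m mpos m1 m2 e he0 he1 x hx hn U hU
  obtain ⟨w, hw, y, h0, h1, h2⟩ := hG m mpos m1 m2 e he0 he1 x hx hn U hU
  exact ⟨w, hw, y, h0, h1, h2⟩

end Pool.Agent.Results.MP_6e7c44_mp.LagrangeEquilibriaEscape
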